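import Mathlib

set_option autoImplicit false
set_option maxRecDepth 100000

namespace Pool.Agent.Results.MP_0d3379_co.No

/-- `(cv, ce)` is a total-`k`-colouring of the subgraph `H` in `G`: vertices of `H` adjacent in `G`
get distinct colours, edges of `H` sharing an endpoint get distinct colours, and every edge of `H`
gets a colour different from the colours of its endpoints. For `H = ⊤` this is a
total-`k`-colouring of `G`. Only the values on vertices and edges of `H` matter. -/
def TotalOn {V : Type} {G : SimpleGraph V} (H : G.Subgraph) (k : ℕ)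
    (cv : V → Fin k) (ce : Sym2 V → Fin k) : Prop :=
  (∀ u v, u ∈ H.verts → v ∈ H.verts → G.Adj u v → cv u ≠ cv v) ∧
  (∀ u v w, H.Adj u v → H.Adj u w → v ≠ w → ce s(u, v) ≠ ce s(u, w)) ∧
  (∀ u v, H.Adj u v → ce s(u, v) ≠ cv u)

/-- The colouring `(cv, ce)` of `H` extends to a total-`k`-colouring of `G`. -/
def Extends {V : Type} {G : SimpleGraph V} (H : G.Subgraph) (k : ℕ)
    (cv : V → Fin k) (ce : Sym2 V → Fin k) : Prop :=
  ∃ (cv' : V → Fin k) (ce' : Sym2 V → Fin k), TotalOn (⊤ : G.Subgraph) k cv' ce' ∧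
    (∀ v ∈ H.verts, cv' v = cv v) ∧ (∀ e ∈ H.edgeSet, ce' e = ce e)

def r (a b : ℕ) : Bool :=
  (a < 6 && 6 ≤ b && b < 12 && !(b == a + 6 && a < 3)) || (b == 12 && a < 3) ||
  (b == 12 && 6 ≤ a && a < 9) || (a < 13 && b == a + 13)

def m (a b : ℕ) : Bool := (a < 13 && b == a + 13) || (b < 13 && a == b + 13)

def G0 : SimpleGraph (Fin 26) where
  Adj a b := (r a.val b.val || r b.val a.val) = true
  symm := ⟨fun a b h => by rw [Bool.or_comm]; exact h⟩
  loopless := ⟨by decide⟩

instance : DecidableRel G0.Adj := fun a b =>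
  inferInstanceAs (Decidable ((r a.val b.val || r b.val a.val) = true))

def H0 : G0.Subgraph where
  verts := Set.univ
  Adj a b := m a.val b.val = true
  adj_sub := by
    have : ∀ a b : Fin 26, m a.val b.val = true → G0.Adj a b := by decide
    intro a b h; exact this a b h
  edge_vert := fun _ => Set.mem_univ _
  symm := ⟨fun a b h => by unfold m at *; rw [Bool.or_comm]; exact h⟩

def cv0 (v : Fin 26) : Fin 10 :=
  if v.val < 6 then 0 else if v.val < 12 then 3 else if v.val = 12 then 2 else 4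

def pc (v : Fin 26) : Fin 10 :=
  if v.val < 6 then 1 else if v.val < 12 then 2 else if v.val = 12 then 3 else 0

def ce0 : Sym2 (Fin 26) → Fin 10 := Sym2.lift ⟨fun a b => pc a + pc b, fun _ _ => add_comm _ _⟩

def pd (v : Fin 26) : Fin 26 := v + 13

theorem conn : G0.Connected := by
  have h : ∀ v : Fin 26, G0.Adj 5 v ∨ (∃ a, G0.Adj 5 a ∧ G0.Adj a v) ∨
      (∃ a, G0.Adj 5 a ∧ ∃ b, G0.Adj a b ∧ G0.Adj b v) := by decide
  refine (SimpleGraph.connected_iff_exists_forall_reachable _).2 ⟨5, fun v => ?_⟩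
  rcases h v with h | ⟨a, h1, h2⟩ | ⟨a, h1, b, h2, h3⟩
  · exact h.reachable
  · exact h1.reachable.trans h2.reachable
  · exact (h1.reachable.trans h2.reachable).trans h3.reachable

theorem noext : ¬ Extends H0 10 cv0 ce0 := by
  rintro ⟨cv, ce, ⟨-, h1, h2⟩, hv, he⟩
  simp only [SimpleGraph.Subgraph.top_adj] at h1 h2
  have hv' : ∀ v, cv v = cv0 v := fun v => hv v (Set.mem_univ _)
  have hp : ∀ v : Fin 26, v.val < 13 → ce s(v, pd v) = pc v := by
    have k1 : ∀ v : Fin 26, v.val < 13 → m v.val (pd v).val = true ∧ pc v + pc (pd v) = pc v := by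
      decide
    intro v hv
    rw [he _ (show s(v, pd v) ∈ H0.edgeSet from (k1 v hv).1)]
    exact (k1 v hv).2
  have hpa : ∀ v : Fin 26, v.val < 13 → G0.Adj v (pd v) ∧ 13 ≤ (pd v).val := by decide
  have av : ∀ u w : Fin 26, u.val < 13 → w.val < 13 → G0.Adj u w →
      ce s(u, w) ≠ cv0 u ∧ ce s(u, w) ≠ pc u := by
    intro u w hu hw ha
    refine ⟨hv' u ▸ h2 u w ha, ?_⟩
    rw [← hp u hu]
    refine h1 u w _ ha (hpa u hu).1 ?_
    intro e
    have := (hpa u hu).2
    rw [← e] at this
    omega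
  have avX : ∀ u w : Fin 26, u.val < 6 → w.val < 13 → G0.Adj u w →
      (ce s(u, w)).val ≠ 0 ∧ (ce s(u, w)).val ≠ 1 := by
    intro u w hu hw ha
    obtain ⟨a, b⟩ := av u w (by omega) hw ha
    simp only [cv0, pc, if_pos hu] at a b
    exact ⟨fun e => a (Fin.ext e), fun e => b (Fin.ext e)⟩
  have avY : ∀ u w : Fin 26, 6 ≤ u.val → u.val < 13 → w.val < 13 → G0.Adj u w →
      (ce s(u, w)).val ≠ 2 ∧ (ce s(u, w)).val ≠ 3 := by
    intro u w hu hu' hw ha
    obtain ⟨a, b⟩ := av u w hu' hw ha
    by_cases h : u.val < 12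
    · simp only [cv0, pc, if_neg (show ¬ u.val < 6 by omega), if_pos h] at a b
      exact ⟨fun e => b (Fin.ext e), fun e => a (Fin.ext e)⟩
    · simp only [cv0, pc, if_neg (show ¬ u.val < 6 by omega), if_neg h,
        if_pos (show u.val = 12 by omega)] at a b
      exact ⟨fun e => a (Fin.ext e), fun e => b (Fin.ext e)⟩
  have hA : ∃ y : Fin 26, 6 ≤ y.val ∧ y.val < 12 ∧ G0.Adj 12 y ∧ 4 ≤ (ce s(12, y)).val := by
    by_contra hn
    push Not at hn
    have a6 := hn 6 (by decide) (by decide) (by decide)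
    have a7 := hn 7 (by decide) (by decide) (by decide)
    have a8 := hn 8 (by decide) (by decide) (by decide)
    have b6 := avY 12 6 (by decide) (by decide) (by decide) (by decide)
    have b7 := avY 12 7 (by decide) (by decide) (by decide) (by decide)
    have b8 := avY 12 8 (by decide) (by decide) (by decide) (by decide)
    have c1 := Fin.val_ne_of_ne (h1 12 6 7 (by decide) (by decide) (by decide))
    have c2 := Fin.val_ne_of_ne (h1 12 6 8 (by decide) (by decide) (by decide))
    have c3 := Fin.val_ne_of_ne (h1 12 7 8 (by decide) (by decide) (by decide))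
    omega
  obtain ⟨y, y1, y2, y3, y4⟩ := hA
  have hB : ∀ x : Fin 26, x.val < 6 → ∃ w : Fin 26, 6 ≤ w.val ∧ w.val < 13 ∧ G0.Adj x w ∧
      ce s(x, w) = ce s(12, y) := by
    intro x hx
    have hc : ∀ x : Fin 26, x.val < 6 → (Finset.univ.filter
        (fun w : Fin 26 => 6 ≤ w.val ∧ w.val < 13 ∧ G0.Adj x w)).card = 6 := by decide
    obtain ⟨w, hw, e⟩ := Finset.surj_on_of_inj_on_of_card_le
      (s := Finset.univ.filter (fun w : Fin 26 => 6 ≤ w.val ∧ w.val < 13 ∧ G0.Adj x w))
      (t := Finset.univ.filter (fun c : Fin 10 => 4 ≤ c.val)) (fun w _ => ce s(x, w))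
      (by
        intro w hw
        simp only [Finset.mem_filter, Finset.mem_univ, true_and] at hw ⊢
        have a := avX x w hx hw.2.1 hw.2.2
        have b := avY w x hw.1 hw.2.1 (by omega) hw.2.2.symm
        rw [Sym2.eq_swap] at b
        omega)
      (by
        intro a b ha hb e
        simp only [Finset.mem_filter, Finset.mem_univ, true_and] at ha hb
        by_contra hne
        exact h1 x a b ha.2.2 hb.2.2 hne e)
      (by rw [hc x hx]; decide) (ce s(12, y))
      (by simp only [Finset.mem_filter, Finset.mem_univ, true_and]; exact y4)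
    simp only [Finset.mem_filter, Finset.mem_univ, true_and] at hw
    exact ⟨w, hw.1, hw.2.1, hw.2.2, e.symm⟩
  choose! w hw using hB
  have hcard : ∀ y : Fin 26, 6 ≤ y.val → y.val < 12 → (Finset.univ.filter
      (fun w : Fin 26 => 6 ≤ w.val ∧ w.val < 12 ∧ w ≠ y)).card <
      (Finset.univ.filter (fun x : Fin 26 => x.val < 6)).card := by decide
  obtain ⟨a, ha, b, hb, hne, e⟩ := Finset.exists_ne_map_eq_of_card_lt_of_maps_to
    (hcard y y1 y2) (f := w) (by
      intro x hx
      simp only [Finset.coe_filter, Finset.mem_univ, true_and, Set.mem_ofPred_eq] at hx ⊢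
      obtain ⟨p1, p2, p3, p4⟩ := hw x hx
      refine ⟨p1, ?_, ?_⟩
      · by_contra hn
        have e : w x = 12 := Fin.ext (by simp; omega)
        rw [e] at p3 p4
        refine h1 12 x y p3.symm y3 ?_ (by rw [← p4, Sym2.eq_swap])
        intro e; rw [e] at hx; omega
      · intro e
        rw [e] at p3 p4
        refine h1 y x 12 p3.symm y3.symm ?_
          (by rw [Sym2.eq_swap, p4, Sym2.eq_swap])
        intro e; rw [e] at hx; exact absurd hx (by decide))
  simp only [Finset.mem_filter, Finset.mem_univ, true_and] at ha hb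
  obtain ⟨-, -, p3, p4⟩ := hw a ha
  obtain ⟨-, -, q3, q4⟩ := hw b hb
  rw [← e] at q3 q4
  exact h1 (w a) a b p3.symm q3.symm hne
    (by rw [Sym2.eq_swap, p4, Sym2.eq_swap (a := w a), q4])

/-- There are a connected graph `G`, a matching `H` in `G` and a total-`(Δ+3)`-colouring of `H`
in `G` that does not extend to a total-`(Δ+3)`-colouring of `G`. -/
theorem result : ∃ (n : ℕ) (G : SimpleGraph (Fin n)) (_ : DecidableRel G.Adj) (H : G.Subgraph)
    (k : ℕ), G.Connected ∧ H.IsMatching ∧ k = G.maxDegree + 3 ∧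
    ∃ (cv : Fin n → Fin k) (ce : Sym2 (Fin n) → Fin k),
      TotalOn H k cv ce ∧ ¬ Extends H k cv ce := by
  refine ⟨26, G0, inferInstance, H0, 10, conn, ?_, ?_, cv0, ce0, ⟨?_, ?_, ?_⟩, noext⟩
  · intro v _
    have : ∀ v : Fin 26, m v.val (pd v).val = true ∧ ∀ w : Fin 26, m v.val w.val = true →
      w = pd v := by decide
    exact ⟨pd v, (this v).1, (this v).2⟩
  · have h1 : G0.maxDegree ≤ 7 := G0.maxDegree_le_of_forall_degree_le 7 (by decide)
    have h2 : G0.degree 0 ≤ G0.maxDegree := G0.degree_le_maxDegree 0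
    have h3 : G0.degree 0 = 7 := by decide
    omega
  · have : ∀ u v : Fin 26, G0.Adj u v → cv0 u ≠ cv0 v := by decide
    exact fun u v _ _ => this u v
  · have : ∀ u v : Fin 26, m u.val v.val = true → v = pd u := by decide
    intro u v w a b c
    exact absurd ((this u v a).trans (this u w b).symm) c
  · have : ∀ u v : Fin 26, m u.val v.val = true → pc u + pc v ≠ cv0 u := by decide
    exact this

end Pool.Agent.Results.MP_0d3379_co.No
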